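import Mathlib

/-!
# Collapsing closed trails, and the girth of the cycle graph
-/

open Finset

namespace Pool.Agent.Lib.MP_2d3ccd_co

open SimpleGraph

/-- A walk can be pushed forward along a map that sends each of its edges to an edge or to a
single vertex. -/
theorem exists_collapse {V W : Type} [DecidableEq W] {G : SimpleGraph V} {H : SimpleGraph W} (f : V → W)
    {x y : V} (p : G.Walk x y)
    (hp : ∀ e ∈ p.edges, Sym2.map f e ∈ H.edgeSet ∨ (Sym2.map f e).IsDiag) :
    ∃ q : H.Walk (f x) (f y),
      q.edges = (p.edges.filter (fun e => ¬ (Sym2.map f e).IsDiag)).map (Sym2.map f) := by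
  induction p with
  | nil => exact ⟨Walk.nil, by simp⟩
  | @cons u v w h p ih =>
    obtain ⟨q, hq⟩ := ih (fun e he => hp e (by simp [he]))
    by_cases hd : f u = f v
    · refine ⟨q.copy hd.symm rfl, ?_⟩
      rw [Walk.edges_copy, hq, Walk.edges_cons, List.filter_cons_of_neg]
      simp [hd]
    · have hadj : H.Adj (f u) (f v) := by
        have := hp s(u, v) (by simp)
        rcases this with h1 | h1
        · exact h1
        · exact absurd h1 (by simpa using hd)
      refine ⟨Walk.cons hadj q, ?_⟩
      rw [Walk.edges_cons, hq, Walk.edges_cons, List.filter_cons_of_pos]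
      · simp
      · simpa using hd

/-- If a closed trail is collapsed injectively on its surviving edges, and some edge survives,
then the number of surviving edges is at least the girth of the target. -/
theorem egirth_le_of_collapse {V W : Type} [DecidableEq W] {G : SimpleGraph V} {H : SimpleGraph W} (f : V → W)
    {x : V} (p : G.Walk x x) (htr : p.IsTrail)
    (hp : ∀ e ∈ p.edges, Sym2.map f e ∈ H.edgeSet ∨ (Sym2.map f e).IsDiag)
    (hinj : ∀ e ∈ p.edges, ∀ e' ∈ p.edges, ¬ (Sym2.map f e).IsDiag →
      Sym2.map f e = Sym2.map f e' → e = e')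
    (hne : ∃ e ∈ p.edges, ¬ (Sym2.map f e).IsDiag) :
    H.egirth ≤ ((p.edges.filter (fun e => ¬ (Sym2.map f e).IsDiag)).length : ℕ∞) := by
  obtain ⟨q, hq⟩ := exists_collapse (H := H) f p hp
  have hlen : q.length = (p.edges.filter (fun e => ¬ (Sym2.map f e).IsDiag)).length := by
    rw [← Walk.length_edges, hq, List.length_map]
  rw [← hlen]
  apply Walk.IsCircuit.egirth_le_length
  refine ⟨⟨?_⟩, ?_⟩
  · rw [hq]
    apply List.Nodup.map_on
    · intro e he e' he' heq
      rw [List.mem_filter] at he he'
      exact hinj e he.1 e' he'.1 (by simpa using he.2) heq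
    · exact htr.edges_nodup.filter _
  · intro hnil
    obtain ⟨e, he, hd⟩ := hne
    have h0 : q.length = 0 := by rw [hnil]; rfl
    rw [hlen, List.length_eq_zero_iff] at h0
    have : e ∈ p.edges.filter (fun e => ¬ (Sym2.map f e).IsDiag) := by
      rw [List.mem_filter]
      exact ⟨he, by simpa using hd⟩
    rw [h0] at this
    simp at this

/-- The cycle graph on `k ≥ 3` vertices has girth at least `k`. -/
theorem le_egirth_cycleGraph (k : ℕ) (hk : 3 ≤ k) : (k : ℕ∞) ≤ (cycleGraph k).egirth := by
  obtain ⟨n, rfl⟩ : ∃ n, k = n + 3 := ⟨k - 3, by omega⟩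
  rw [le_egirth]
  intro a w hw
  have hnil : ¬ w.Nil := hw.not_nil
  have hstep : ∀ v ∈ w.support, v + 1 ∈ w.support := by
    intro v hv
    have hw' : (w.rotate v hv).IsCycle := hw.rotate hv
    have hnil' : ¬ (w.rotate v hv).Nil := hw'.not_nil
    have h1 : (cycleGraph (n + 3)).Adj v (w.rotate v hv).snd := Walk.adj_snd hnil'
    have h2 : (cycleGraph (n + 3)).Adj v (w.rotate v hv).penultimate :=
      (Walk.adj_penultimate hnil').symm
    have h3 := hw'.snd_ne_penultimate
    have m1 : (w.rotate v hv).snd ∈ w.support := by
      rw [← Walk.mem_support_rotate_iff w v hv]; exact Walk.getVert_mem_support _ _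
    have m2 : (w.rotate v hv).penultimate ∈ w.support := by
      rw [← Walk.mem_support_rotate_iff w v hv]; exact Walk.getVert_mem_support _ _
    have n1 : (w.rotate v hv).snd ∈ (cycleGraph (n + 3)).neighborSet v := h1
    have n2 : (w.rotate v hv).penultimate ∈ (cycleGraph (n + 3)).neighborSet v := h2
    rw [cycleGraph_neighborSet] at n1 n2
    simp only [Set.mem_insert_iff, Set.mem_singleton_iff] at n1 n2
    rcases n1 with n1 | n1
    · rcases n2 with n2 | n2
      · exact absurd (n1.trans n2.symm) h3
      · rwa [← n2]
    · rwa [← n1]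
  have hall : ∀ v : Fin (n + 3), v ∈ w.support := by
    have h1 : ∀ j : ℕ, a + j • (1 : Fin (n + 3)) ∈ w.support := by
      intro j
      induction j with
      | zero => simp
      | succ j ih =>
        have := hstep _ ih
        rw [succ_nsmul, ← add_assoc]
        exact this
    have h2 : ∀ x : Fin (n + 3), x.val • (1 : Fin (n + 3)) = x := by
      intro x
      obtain ⟨j, hj⟩ := x
      induction j with
      | zero => simp
      | succ j ih =>
        have := ih (by omega)
        simp only at this ⊢
        rw [succ_nsmul, this]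
        ext
        rw [Fin.val_add, Fin.val_one', Nat.mod_eq_of_lt (show 1 < n + 3 by omega)]
        exact Nat.mod_eq_of_lt hj
    intro v
    have := h1 (v - a).val
    rwa [h2, add_sub_cancel] at this
  have htail : ∀ v : Fin (n + 3), v ∈ w.support.tail := by
    intro v
    by_cases hva : v = a
    · subst hva
      exact Walk.end_mem_tail_support hnil
    · have := hall v
      rw [Walk.mem_support_iff] at this
      exact this.resolve_left hva
  have hsub : (Finset.univ : Finset (Fin (n + 3))) ⊆ w.support.tail.toFinset := by
    intro v _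
    rw [List.mem_toFinset]
    exact htail v
  have h1 := Finset.card_le_card hsub
  have h2 := List.toFinset_card_le w.support.tail
  rw [Finset.card_univ, Fintype.card_fin] at h1
  have h3 : w.support.tail.length = w.length := by simp
  rw [h3] at h2
  exact_mod_cast h1.trans h2

end Pool.Agent.Lib.MP_2d3ccd_co
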