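import Mathlib

/-!
# Erdős 1959: finite graphs of large girth and large chromatic number

A self-contained counting proof.
-/

open Finset

namespace Pool.Agent.Lib.MP_2d3ccd_co

/-- The number of functions `ω : E → Fin q` sending all elements of `A` into `S`. -/
theorem card_constrained {E : Type} [Fintype E] [DecidableEq E] {q : ℕ} (A : Finset E)
    (S : Finset (Fin q)) :
    ((Finset.univ.filter fun ω : E → Fin q => ∀ e ∈ A, ω e ∈ S).card) * q ^ A.card
      = S.card ^ A.card * q ^ Fintype.card E := by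
  have h1 : (Finset.univ.filter fun ω : E → Fin q => ∀ e ∈ A, ω e ∈ S)
      = Fintype.piFinset (fun e => if e ∈ A then S else Finset.univ) := by
    ext ω
    simp only [Finset.mem_filter, Finset.mem_univ, true_and, Fintype.mem_piFinset]
    constructor
    · intro h e
      split_ifs with he
      · exact h e he
      · exact Finset.mem_univ _
    · intro h e he
      have := h e
      rwa [if_pos he] at this
  rw [h1, Fintype.card_piFinset]
  have h2 : ∀ e : E, (if e ∈ A then S else (Finset.univ : Finset (Fin q))).card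
      = if e ∈ A then S.card else q := by
    intro e; split_ifs <;> simp
  simp only [h2]
  rw [Finset.prod_ite, Finset.prod_const, Finset.prod_const, mul_assoc, ← pow_add]
  have h3 : (Finset.univ.filter fun e : E => e ∈ A) = A := by ext; simp
  rw [h3]
  congr 2
  have h4 := Finset.card_filter_add_card_filter_not (s := (Finset.univ : Finset E)) (fun e => e ∈ A)
  rw [h3, Finset.card_univ] at h4
  omega

/-- The graph on `V` given by a function on unordered pairs: edges are the pairs of value `0`. -/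
def rg {V : Type} {q : ℕ} [NeZero q] (ω : Sym2 V → Fin q) : SimpleGraph V where
  Adj x y := x ≠ y ∧ ω s(x, y) = 0
  symm := ⟨fun x y h => ⟨h.1.symm, by rw [Sym2.eq_swap]; exact h.2⟩⟩
  loopless := ⟨fun x h => h.1 rfl⟩

/-- The edges of the closed cycle described by `f`. -/
def cycEdges {V : Type} [DecidableEq V] {l : ℕ} (f : Fin l ↪ V) : Finset (Sym2 V) :=
  (SimpleGraph.cycleGraph l).edgeFinset.map f.sym2Map

theorem card_cycEdges {V : Type} [DecidableEq V] {l : ℕ} (hl : 3 ≤ l) (f : Fin l ↪ V) :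
    (cycEdges f).card = l := by
  unfold cycEdges
  rw [Finset.card_map]
  obtain ⟨m, rfl⟩ : ∃ m, l = m + 3 := ⟨l - 3, by omega⟩
  have h := SimpleGraph.sum_degrees_eq_twice_card_edges (SimpleGraph.cycleGraph (m + 3))
  simp only [SimpleGraph.cycleGraph_degree_three_le] at h
  rw [Finset.sum_const, Finset.card_univ, Fintype.card_fin, smul_eq_mul] at h
  omega

theorem bernoulli_nat (r j : ℕ) : r ^ (j + 1) + (j + 1) * r ^ j ≤ (r + 1) ^ (j + 1) := by
  induction j with
  | zero => simp
  | succ j ih =>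
    calc r ^ (j + 1 + 1) + (j + 1 + 1) * r ^ (j + 1)
        ≤ (r ^ (j + 1) + (j + 1) * r ^ j) * (r + 1) := by
          have h1 : (r ^ (j + 1) + (j + 1) * r ^ j) * (r + 1)
              = r ^ (j + 1 + 1) + (j + 1 + 1) * r ^ (j + 1) + (j + 1) * r ^ j := by ring
          omega
      _ ≤ (r + 1) ^ (j + 1) * (r + 1) := Nat.mul_le_mul_right _ ih
      _ = (r + 1) ^ (j + 1 + 1) := by ring

theorem two_mul_pow_le (q : ℕ) (hq : 1 ≤ q) : 2 * (q - 1) ^ q ≤ q ^ q := by
  obtain ⟨r, rfl⟩ : ∃ r, q = r + 1 := ⟨q - 1, by omega⟩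
  have h := bernoulli_nat r r
  rw [Nat.add_sub_cancel]
  have h2 : r ^ (r + 1) ≤ (r + 1) * r ^ r := by
    rw [pow_succ, mul_comm]
    exact Nat.mul_le_mul_right _ (Nat.le_succ r)
  omega

theorem pow_bound (q a m : ℕ) (hq : 1 ≤ q) (hm : q * a ≤ m) : 2 ^ a * (q - 1) ^ m ≤ q ^ m := by
  obtain ⟨m', rfl⟩ : ∃ m', m = q * a + m' := ⟨m - q * a, by omega⟩
  rw [pow_add, pow_add, pow_mul, pow_mul, ← mul_assoc, ← mul_pow]
  exact Nat.mul_le_mul (Nat.pow_le_pow_left (two_mul_pow_le q hq) a)
    (Nat.pow_le_pow_left (Nat.sub_le q 1) m')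

open Classical in
/-- **Erdős 1959**: for all `k ≥ 1` and `g` there is a finite graph that is not `k`-colourable and
has girth larger than `g`. -/
theorem erdos_high_girth (k g : ℕ) (hk : 1 ≤ k) :
    ∃ (n : ℕ) (G : SimpleGraph (Fin n)), ¬ G.Colorable k ∧ (g : ℕ∞) < G.egirth := by
  set C : ℕ := 16 * k ^ 2 with hC
  set K : ℕ := ∑ l ∈ Finset.Icc 3 g, C ^ l with hK
  set q : ℕ := K + 1 with hq
  have hq1 : 1 ≤ q := by omega
  have : NeZero q := ⟨by omega⟩
  set n : ℕ := 16 * k ^ 2 * q with hn
  set s : ℕ := 8 * k * q with hs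
  set N : ℕ := Fintype.card (Sym2 (Fin n)) with hN
  -- the number of short cycles
  let bad : (Sym2 (Fin n) → Fin q) → (l : ℕ) → Finset (Fin l ↪ Fin n) := fun ω l =>
    Finset.univ.filter fun f => ∀ e ∈ cycEdges f, ω e ∈ ({0} : Finset (Fin q))
  let T : (Sym2 (Fin n) → Fin q) → ℕ := fun ω => ∑ l ∈ Finset.Icc 3 g, (bad ω l).card
  have hTsum : ∑ ω, T ω ≤ K * q ^ N := by
    simp only [T]
    rw [Finset.sum_comm, hK, Finset.sum_mul]
    refine Finset.sum_le_sum fun l hl => ?_
    have hl3 : 3 ≤ l := (Finset.mem_Icc.1 hl).1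
    have h1 : ∑ ω : Sym2 (Fin n) → Fin q, (bad ω l).card
        = ∑ f : Fin l ↪ Fin n, (Finset.univ.filter fun ω : Sym2 (Fin n) → Fin q =>
            ∀ e ∈ cycEdges f, ω e ∈ ({0} : Finset (Fin q))).card := by
      simp only [bad, Finset.card_filter]
      exact Finset.sum_comm
    rw [h1]
    have h2 : (∑ f : Fin l ↪ Fin n, (Finset.univ.filter fun ω : Sym2 (Fin n) → Fin q =>
            ∀ e ∈ cycEdges f, ω e ∈ ({0} : Finset (Fin q))).card) * q ^ l
            ≤ (C ^ l * q ^ N) * q ^ l := by
      rw [Finset.sum_mul]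
      have h3 : ∀ f : Fin l ↪ Fin n, (Finset.univ.filter fun ω : Sym2 (Fin n) → Fin q =>
            ∀ e ∈ cycEdges f, ω e ∈ ({0} : Finset (Fin q))).card * q ^ l = q ^ N := by
        intro f
        have := card_constrained (q := q) (cycEdges f) ({0} : Finset (Fin q))
        rw [card_cycEdges hl3 f] at this
        rw [this]
        simp [hN]
      simp only [h3]
      rw [Finset.sum_const, Finset.card_univ, smul_eq_mul, Fintype.card_embedding_eq]
      simp only [Fintype.card_fin]
      calc n.descFactorial l * q ^ N ≤ n ^ l * q ^ N :=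
            Nat.mul_le_mul_right _ (Nat.descFactorial_le_pow n l)
        _ = C ^ l * q ^ N * q ^ l := by rw [hn, mul_pow]; ring
    exact Nat.le_of_mul_le_mul_right h2 (by positivity)
  set B2 : Finset (Sym2 (Fin n) → Fin q) := Finset.univ.filter fun ω => k * s ≤ T ω with hB2
  have hB2card : 4 * B2.card ≤ q ^ N := by
    have h1 : B2.card * (k * s) ≤ ∑ ω, T ω := by
      rw [← smul_eq_mul, ← Finset.sum_const]
      refine (Finset.sum_le_sum (f := fun _ => k * s) (g := T) ?_).trans
        (Finset.sum_le_sum_of_subset (Finset.subset_univ _))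
      intro ω hω
      exact (Finset.mem_filter.1 hω).2
    have h2 : 4 * (K + 1) ≤ k * s := by
      rw [hs, hq]
      have : 1 ≤ k * k := Nat.mul_pos hk hk
      nlinarith
    have h3 : B2.card * (4 * (K + 1)) ≤ (K + 1) * q ^ N :=
      (Nat.mul_le_mul_left _ h2).trans (h1.trans (hTsum.trans (Nat.mul_le_mul_right _ (by omega))))
    have h4 : (K + 1) * (4 * B2.card) ≤ (K + 1) * q ^ N := by
      calc (K + 1) * (4 * B2.card) = B2.card * (4 * (K + 1)) := by ring
        _ ≤ _ := h3
    exact Nat.le_of_mul_le_mul_left h4 (by omega)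
  -- independent sets
  set m : ℕ := s.choose 2 with hm
  have hmge : q * (n + 2) ≤ m := by
    rw [hm, Nat.choose_two_right, Nat.le_div_iff_mul_le (by norm_num), hn, hs]
    have hkq : 1 ≤ k * q := Nat.mul_pos hk hq1
    obtain ⟨t, ht⟩ : ∃ t, k * q = t + 1 := ⟨k * q - 1, by omega⟩
    have h8 : 8 * k * q - 1 = 8 * t + 7 := by
      have : 8 * k * q = 8 * (k * q) := by ring
      rw [this, ht]; omega
    rw [h8]
    have h9 : 8 * k * q = 8 * (t + 1) := by rw [← ht]; ring
    rw [h9]
    have h10 : q * (16 * k ^ 2 * q + 2) * 2 = 32 * (k * q) ^ 2 + 4 * q := by ring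
    rw [h10, ht]
    have h11 : q ≤ t + 1 := by rw [← ht]; exact Nat.le_mul_of_pos_left q hk
    nlinarith
  set B1 : Finset (Sym2 (Fin n) → Fin q) := (Finset.univ.powersetCard s).biUnion fun S =>
    Finset.univ.filter fun ω : Sym2 (Fin n) → Fin q =>
      ∀ e ∈ S.offDiag.image Sym2.mk.uncurry, ω e ∈ (Finset.univ.erase (0 : Fin q)) with hB1
  have hB1card : 4 * B1.card ≤ q ^ N := by
    have h1 : ∀ S ∈ (Finset.univ : Finset (Fin n)).powersetCard s,
        2 ^ (n + 2) * (Finset.univ.filter fun ω : Sym2 (Fin n) → Fin q =>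
          ∀ e ∈ S.offDiag.image Sym2.mk.uncurry, ω e ∈ (Finset.univ.erase (0 : Fin q))).card ≤ q ^ N := by
      intro S hS
      have hScard : S.card = s := (Finset.mem_powersetCard.1 hS).2
      have h2 := card_constrained (q := q) (S.offDiag.image Sym2.mk.uncurry)
        (Finset.univ.erase (0 : Fin q))
      have h3 : (S.offDiag.image Sym2.mk.uncurry).card = m := by
        have := Sym2.card_image_offDiag S
        rw [hm, ← hScard, ← this]
      rw [h3, Finset.card_erase_of_mem (Finset.mem_univ _), Finset.card_univ, Fintype.card_fin] at h2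
      have h4 := pow_bound q (n + 2) m hq1 hmge
      have h5 : (2 ^ (n + 2) * (Finset.univ.filter fun ω : Sym2 (Fin n) → Fin q =>
          ∀ e ∈ S.offDiag.image Sym2.mk.uncurry, ω e ∈ (Finset.univ.erase (0 : Fin q))).card) * q ^ m
          ≤ q ^ N * q ^ m := by
        rw [mul_assoc, h2, ← mul_assoc, mul_comm (q ^ N)]
        exact Nat.mul_le_mul_right _ h4
      exact Nat.le_of_mul_le_mul_right h5 (by positivity)
    have h6 : 2 ^ (n + 2) * B1.card ≤ 2 ^ n * q ^ N := by
      calc 2 ^ (n + 2) * B1.card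
          ≤ 2 ^ (n + 2) * ∑ S ∈ (Finset.univ : Finset (Fin n)).powersetCard s,
            (Finset.univ.filter fun ω : Sym2 (Fin n) → Fin q =>
              ∀ e ∈ S.offDiag.image Sym2.mk.uncurry, ω e ∈ (Finset.univ.erase (0 : Fin q))).card :=
            Nat.mul_le_mul_left _ Finset.card_biUnion_le
        _ = ∑ S ∈ (Finset.univ : Finset (Fin n)).powersetCard s,
            2 ^ (n + 2) * (Finset.univ.filter fun ω : Sym2 (Fin n) → Fin q =>
              ∀ e ∈ S.offDiag.image Sym2.mk.uncurry, ω e ∈ (Finset.univ.erase (0 : Fin q))).card :=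
            Finset.mul_sum _ _ _
        _ ≤ ∑ S ∈ (Finset.univ : Finset (Fin n)).powersetCard s, q ^ N := Finset.sum_le_sum h1
        _ = ((Finset.univ : Finset (Fin n)).powersetCard s).card * q ^ N := by
            rw [Finset.sum_const, smul_eq_mul]
        _ ≤ 2 ^ n * q ^ N := by
            refine Nat.mul_le_mul_right _ ?_
            rw [Finset.card_powersetCard, Finset.card_univ, Fintype.card_fin]
            exact Nat.choose_le_two_pow n s
    have h7 : 2 ^ n * (4 * B1.card) ≤ 2 ^ n * q ^ N := by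
      calc 2 ^ n * (4 * B1.card) = 2 ^ (n + 2) * B1.card := by rw [pow_add]; ring
        _ ≤ _ := h6
    exact Nat.le_of_mul_le_mul_left h7 (by positivity)
  -- a good function
  obtain ⟨ω, hω⟩ : ∃ ω, ω ∉ B1 ∪ B2 := by
    by_contra hcon
    push Not at hcon
    have h1 : (Finset.univ : Finset (Sym2 (Fin n) → Fin q)) ⊆ B1 ∪ B2 := fun ω _ => hcon ω
    have h2 := Finset.card_le_card h1
    have h3 := Finset.card_union_le B1 B2
    rw [Finset.card_univ, Fintype.card_fun, Fintype.card_fin, ← hN] at h2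
    have h4 : 0 < q ^ N := by positivity
    omega
  rw [Finset.mem_union, not_or] at hω
  obtain ⟨hω1, hω2⟩ := hω
  have hT : T ω < k * s := by
    by_contra hcon
    exact hω2 (Finset.mem_filter.2 ⟨Finset.mem_univ _, not_lt.1 hcon⟩)
  set D : Finset (Fin n) := (Finset.Icc 3 g).biUnion fun l =>
    if h : 0 < l then (bad ω l).image (fun f => f ⟨0, h⟩) else ∅ with hD
  have hDcard : D.card ≤ T ω := by
    refine Finset.card_biUnion_le.trans (Finset.sum_le_sum fun l _ => ?_)
    split_ifs
    · exact Finset.card_image_le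
    · simp
  let G : SimpleGraph (Fin n) :=
    { Adj := fun x y => (rg ω).Adj x y ∧ x ∉ D ∧ y ∉ D
      symm := ⟨fun x y h => ⟨h.1.symm, h.2.2, h.2.1⟩⟩
      loopless := ⟨fun x h => (rg ω).loopless.irrefl x h.1⟩ }
  refine ⟨n, G, ?_, ?_⟩
  · rintro ⟨c⟩
    have hU : k * s < (Finset.univ \ D).card := by
      rw [Finset.card_sdiff_of_subset (Finset.subset_univ _), Finset.card_univ, Fintype.card_fin]
      have : n = 2 * (k * s) := by rw [hn, hs]; ring
      omega
    obtain ⟨i, -, hi⟩ := Finset.exists_lt_card_fiber_of_mul_lt_card_of_maps_to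
      (s := Finset.univ \ D) (t := (Finset.univ : Finset (Fin k))) (f := fun v => c v)
      (fun a _ => Finset.mem_univ _) (n := s) (by rw [Finset.card_univ, Fintype.card_fin]; exact hU)
    obtain ⟨S, hSsub, hScard⟩ := Finset.exists_subset_card_eq hi.le
    apply hω1
    rw [hB1, Finset.mem_biUnion]
    refine ⟨S, Finset.mem_powersetCard.2 ⟨Finset.subset_univ _, hScard⟩, ?_⟩
    rw [Finset.mem_filter]
    refine ⟨Finset.mem_univ _, ?_⟩
    intro e he
    rw [Finset.mem_image] at he
    obtain ⟨⟨x, y⟩, hxy, rfl⟩ := he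
    rw [Finset.mem_offDiag] at hxy
    obtain ⟨hx, hy, hne⟩ := hxy
    rw [Finset.mem_erase]
    refine ⟨?_, Finset.mem_univ _⟩
    intro h0
    have hx' := hSsub hx
    have hy' := hSsub hy
    simp only [Finset.mem_filter, Finset.mem_sdiff, Finset.mem_univ, true_and] at hx' hy'
    have hadj : G.Adj x y := ⟨⟨hne, h0⟩, hx'.1, hy'.1⟩
    exact c.valid hadj (hx'.2.trans hy'.2.symm)
  · rw [← ENat.add_one_le_iff (ENat.natCast_ne_top g), SimpleGraph.le_egirth]
    intro a w hw
    by_contra hlt
    have hlen : w.length ≤ g := by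
      rw [not_le, ENat.lt_add_one_iff (ENat.natCast_ne_top g)] at hlt
      exact_mod_cast hlt
    have hl3 := hw.three_le_length
    obtain ⟨φ⟩ := (SimpleGraph.cycleGraph_isContained_iff (G := G) (n := w.length) (by omega)).2
      ⟨a, w, hw, rfl⟩
    have hpos : 0 < w.length := by omega
    let f : Fin w.length ↪ Fin n := ⟨fun i => φ i, φ.injective⟩
    have hf : f ∈ bad ω w.length := by
      simp only [bad, Finset.mem_filter, Finset.mem_univ, true_and]
      intro e he
      simp only [cycEdges, Finset.mem_map, SimpleGraph.mem_edgeFinset] at he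
      obtain ⟨e', he', rfl⟩ := he
      induction e' using Sym2.ind with
      | _ x y =>
        have h1 : (SimpleGraph.cycleGraph w.length).Adj x y := he'
        have h2 : G.Adj (φ x) (φ y) := φ.toHom.map_adj h1
        have h3 : ω s(φ x, φ y) = 0 := h2.1.2
        rw [Finset.mem_singleton]
        exact h3
    have h0D : f ⟨0, hpos⟩ ∈ D := by
      rw [hD, Finset.mem_biUnion]
      refine ⟨w.length, Finset.mem_Icc.2 ⟨hl3, hlen⟩, ?_⟩
      rw [dif_pos hpos, Finset.mem_image]
      exact ⟨f, hf, rfl⟩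
    have h01 : (SimpleGraph.cycleGraph w.length).Adj ⟨0, hpos⟩ ⟨1, by omega⟩ := by
      rw [SimpleGraph.cycleGraph_adj']
      right
      rw [Fin.sub_val_of_le (by simp [Fin.le_def])]
      simp
    have h2 : G.Adj (φ ⟨0, hpos⟩) (φ ⟨1, by omega⟩) := φ.toHom.map_adj h01
    exact h2.2.1 h0D

end Pool.Agent.Lib.MP_2d3ccd_co
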