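import Mathlib
import Pool.Agent.Lib.MP_2d3ccd_co.Erdos
import Pool.Agent.Lib.MP_2d3ccd_co.Collapse

/-!
# The composite graph: a `k`-cycle whose chords are replaced by inequality gadgets
-/

open Finset

namespace Pool.Agent.Lib.MP_2d3ccd_co

open SimpleGraph

/-- An edge-critical graph of large girth. -/
theorem exists_gadget (m g : ℕ) (hm : 1 ≤ m) :
    ∃ (n : ℕ) (H : SimpleGraph (Fin n)) (w x0 : Fin n) (c : Fin n → Fin m),
      H.Adj w x0 ∧ ¬ H.Colorable m ∧ (g : ℕ∞) < H.egirth ∧ c w = c x0 ∧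
      ∀ y z, H.Adj y z → s(y, z) ≠ s(w, x0) → c y ≠ c z := by
  obtain ⟨n, G0, hG0, hg⟩ := erdos_high_girth m g hm
  obtain ⟨H, ⟨hH0, hHc⟩, hmin⟩ := WellFounded.has_min
    (wellFounded_lt : WellFounded (α := SimpleGraph (Fin n)) (· < ·))
    {G' | G' ≤ G0 ∧ ¬ G'.Colorable m} ⟨G0, le_rfl, hG0⟩
  have hne : H ≠ ⊥ := by
    rintro rfl
    exact hHc (Colorable.mono hm (colorable_one_iff.2 rfl))
  obtain ⟨w, x0, hadj⟩ := ne_bot_iff_exists_adj.1 hne
  have hlt : H.deleteEdges {s(w, x0)} < H := by
    refine lt_of_le_of_ne (deleteEdges_le _) ?_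
    intro h
    have : (H.deleteEdges {s(w, x0)}).Adj w x0 := by rw [h]; exact hadj
    simp at this
  have hcol : (H.deleteEdges {s(w, x0)}).Colorable m := by
    by_contra h
    exact hmin _ ⟨hlt.le.trans hH0, h⟩ hlt
  obtain ⟨c⟩ := hcol
  refine ⟨n, H, w, x0, c, hadj, hHc, lt_of_lt_of_le hg (egirth_anti hH0), ?_, ?_⟩
  · by_contra hc
    apply hHc
    refine ⟨Coloring.mk c ?_⟩
    intro y z hyz
    by_cases h : s(y, z) = s(w, x0)
    · rw [Sym2.eq_iff] at h
      rcases h with ⟨rfl, rfl⟩ | ⟨rfl, rfl⟩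
      · exact hc
      · exact fun h => hc h.symm
    · exact c.valid (by rw [deleteEdges_adj]; exact ⟨hyz, by simpa using h⟩)
  · intro y z hyz h
    exact c.valid (by rw [deleteEdges_adj]; exact ⟨hyz, by simpa using h⟩)

variable {k n : ℕ}

/-- The pairs of vertices of the `k`-cycle that get a gadget: the chords. -/
def Chord (i j : Fin k) : Prop := i < j ∧ ¬ (cycleGraph k).Adj i j

/-- The attaching edges. -/
def Port (H : SimpleGraph (Fin n)) (w x0 : Fin n) (i : Fin k) (p : Fin k × Fin k) (y : Fin n) :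
    Prop :=
  Chord p.1 p.2 ∧ ((i = p.1 ∧ y = x0) ∨ (i = p.2 ∧ H.Adj w y ∧ y ≠ x0))

/-- The adjacency of the composite graph. -/
def BigAdj (k : ℕ) (H : SimpleGraph (Fin n)) (w x0 : Fin n) :
    Fin k ⊕ ((Fin k × Fin k) × Fin n) → Fin k ⊕ ((Fin k × Fin k) × Fin n) → Prop
  | Sum.inl i, Sum.inl j => (cycleGraph k).Adj i j
  | Sum.inl i, Sum.inr (p, y) => Port H w x0 i p y
  | Sum.inr (p, y), Sum.inl i => Port H w x0 i p y
  | Sum.inr (p, y), Sum.inr (p', z) => p = p' ∧ H.Adj y z ∧ y ≠ w ∧ z ≠ w

/-- The composite graph. -/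
def big (k : ℕ) (H : SimpleGraph (Fin n)) (w x0 : Fin n) :
    SimpleGraph (Fin k ⊕ ((Fin k × Fin k) × Fin n)) where
  Adj := BigAdj k H w x0
  symm := ⟨by
    rintro (i | ⟨p, y⟩) (j | ⟨p', z⟩) h
    · exact SimpleGraph.Adj.symm (G := cycleGraph k) h
    · exact h
    · exact h
    · exact ⟨h.1.symm, h.2.1.symm, h.2.2.2, h.2.2.1⟩⟩
  loopless := ⟨by
    rintro (i | ⟨p, y⟩) h
    · exact (cycleGraph k).loopless.irrefl i h
    · exact H.loopless.irrefl y h.2.1⟩

/-- Collapsing everything outside the gadget `p` to the vertex `w`. -/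
def proj (w : Fin n) (p : Fin k × Fin k) : Fin k ⊕ ((Fin k × Fin k) × Fin n) → Fin n
  | Sum.inl _ => w
  | Sum.inr (p', y) => if p' = p then y else w

/-- Inverse of `proj` on surviving edges. -/
def lift (w x0 : Fin n) (p : Fin k × Fin k) (u v : Fin n) : Fin k ⊕ ((Fin k × Fin k) × Fin n) :=
  if u = w then Sum.inl (if v = x0 then p.1 else p.2) else Sum.inr (p, u)

variable {H : SimpleGraph (Fin n)} {w x0 : Fin n}

theorem port_adj (hadj : H.Adj w x0) {i : Fin k} {p : Fin k × Fin k} {y : Fin n}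
    (h : Port H w x0 i p y) : H.Adj w y := by
  rcases h.2 with ⟨_, rfl⟩ | ⟨_, h, _⟩
  · exact hadj
  · exact h

theorem proj_edge (hadj : H.Adj w x0) (p : Fin k × Fin k)
    (a b : Fin k ⊕ ((Fin k × Fin k) × Fin n)) (h : (big k H w x0).Adj a b) :
    H.Adj (proj w p a) (proj w p b) ∨ proj w p a = proj w p b := by
  rcases a with i | ⟨p1, y⟩ <;> rcases b with j | ⟨p2, z⟩
  · right; rfl
  · have h' : Port H w x0 i p2 z := h
    simp only [proj]
    split_ifs with hp
    · left; exact port_adj hadj h'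
    · right; rfl
  · have h' : Port H w x0 j p1 y := h
    simp only [proj]
    split_ifs with hp
    · left; exact (port_adj hadj h').symm
    · right; rfl
  · have h' : p1 = p2 ∧ H.Adj y z ∧ y ≠ w ∧ z ≠ w := h
    obtain ⟨rfl, h1, h2, h3⟩ := h'
    simp only [proj]
    split_ifs with hp
    · left; exact h1
    · right; rfl

theorem lift_proj (p : Fin k × Fin k)
    (a b : Fin k ⊕ ((Fin k × Fin k) × Fin n)) (h : (big k H w x0).Adj a b)
    (hne : proj w p a ≠ proj w p b) : a = lift w x0 p (proj w p a) (proj w p b) := by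
  rcases a with i | ⟨p1, y⟩ <;> rcases b with j | ⟨p2, z⟩
  · exact absurd rfl hne
  · have h' : Port H w x0 i p2 z := h
    simp only [proj] at hne ⊢
    split_ifs at hne ⊢ with hp
    · subst hp
      simp only [lift, if_true]
      rcases h'.2 with ⟨h1, h2⟩ | ⟨h1, h2, h3⟩
      · rw [if_pos h2, h1]
      · rw [if_neg h3, h1]
    · exact absurd rfl hne
  · have h' : Port H w x0 j p1 y := h
    simp only [proj] at hne ⊢
    split_ifs at hne ⊢ with hp
    · subst hp
      simp only [lift]
      rw [if_neg hne]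
    · exact absurd rfl hne
  · have h' : p1 = p2 ∧ H.Adj y z ∧ y ≠ w ∧ z ≠ w := h
    obtain ⟨rfl, h1, h2, h3⟩ := h'
    simp only [proj] at hne ⊢
    split_ifs at hne ⊢ with hp
    · subst hp
      simp only [lift]
      rw [if_neg h2]
    · exact absurd rfl hne

theorem proj_inj (p : Fin k × Fin k)
    (e e' : Sym2 (Fin k ⊕ ((Fin k × Fin k) × Fin n))) (he : e ∈ (big k H w x0).edgeSet)
    (he' : e' ∈ (big k H w x0).edgeSet) (hd : ¬ (Sym2.map (proj w p) e).IsDiag)
    (heq : Sym2.map (proj w p) e = Sym2.map (proj w p) e') : e = e' := by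
  induction e using Sym2.ind with
  | _ a b =>
  induction e' using Sym2.ind with
  | _ a' b' =>
  rw [mem_edgeSet] at he he'
  have hne : proj w p a ≠ proj w p b := by simpa using hd
  have hne' : proj w p a' ≠ proj w p b' := by
    have : ¬ (Sym2.map (proj w p) s(a', b')).IsDiag := by rw [← heq]; exact hd
    simpa using this
  have h1 := lift_proj p a b he hne
  have h2 := lift_proj p b a he.symm hne.symm
  have h3 := lift_proj p a' b' he' hne'
  have h4 := lift_proj p b' a' he'.symm hne'.symm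
  rw [Sym2.map_mk, Sym2.map_mk, Sym2.eq_iff] at heq
  rcases heq with ⟨e1, e2⟩ | ⟨e1, e2⟩
  · rw [e1, e2] at h1 h2
    rw [h1, h2, ← h3, ← h4]
  · rw [e1, e2] at h1 h2
    rw [h1, h2, ← h3, ← h4, Sym2.eq_swap]

/-- An edge at a gadget vertex survives the collapse. -/
theorem proj_survive (p : Fin k × Fin k) (y : Fin n)
    (b : Fin k ⊕ ((Fin k × Fin k) × Fin n)) (hadj : H.Adj w x0)
    (h : (big k H w x0).Adj (Sum.inr (p, y)) b) :
    proj w p (Sum.inr (p, y)) ≠ proj w p b := by
  rcases b with j | ⟨p2, z⟩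
  · have h' : Port H w x0 j p y := h
    simp only [proj, if_true]
    exact (port_adj hadj h').ne'
  · have h' : p = p2 ∧ H.Adj y z ∧ y ≠ w ∧ z ≠ w := h
    obtain ⟨rfl, h1, h2, h3⟩ := h'
    simp only [proj, if_true]
    exact h1.ne

/-- The composite graph has girth at least `k`. -/
theorem le_egirth_big (hk : 3 ≤ k) (hadj : H.Adj w x0) (hg : (k : ℕ∞) < H.egirth) :
    (k : ℕ∞) ≤ (big k H w x0).egirth := by
  classical
  rw [le_egirth]
  intro a p hp
  by_cases hex : ∃ q : Fin k × Fin k, ∃ e ∈ p.edges, ¬ (Sym2.map (proj w q) e).IsDiag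
  · obtain ⟨q, hne⟩ := hex
    have h1 := egirth_le_of_collapse (H := H) (proj w q) p hp.isTrail ?_ ?_ hne
    · have h2 : (p.edges.filter (fun e => ¬ (Sym2.map (proj w q) e).IsDiag)).length ≤ p.length := by
        rw [← Walk.length_edges]; exact List.length_filter_le _ _
      have h3 : ((p.edges.filter (fun e => ¬ (Sym2.map (proj w q) e).IsDiag)).length : ℕ∞)
          ≤ p.length := by exact_mod_cast h2
      exact hg.le.trans (h1.trans h3)
    · intro e he
      have he' := Walk.edges_subset_edgeSet p he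
      induction e using Sym2.ind with
      | _ a b =>
        rcases proj_edge hadj q a b he' with h | h
        · left; exact h
        · right; simpa using h
    · intro e he e' he' hd heq
      exact proj_inj q e e' (Walk.edges_subset_edgeSet p he)
        (Walk.edges_subset_edgeSet p he') hd heq
  · push Not at hex
    have hkpos : 0 < k := by omega
    -- all edges are base edges
    have hbase : ∀ e ∈ p.edges, ∃ i j : Fin k, (cycleGraph k).Adj i j ∧
        e = s(Sum.inl i, Sum.inl j) := by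
      intro e he
      have he' := Walk.edges_subset_edgeSet p he
      induction e using Sym2.ind with
      | _ a b =>
        rcases a with i | ⟨p1, y⟩
        · rcases b with j | ⟨p2, z⟩
          · exact ⟨i, j, he', rfl⟩
          · have h1 := hex p2 _ he
            have h2 := proj_survive p2 z (Sum.inl i) hadj
              (SimpleGraph.Adj.symm (G := big k H w x0) he')
            exact absurd (by simpa using h1 : proj w p2 (Sum.inl i) = _).symm h2
        · have h1 := hex p1 _ he
          have h2 := proj_survive p1 y b hadj he'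
          exact absurd (by simpa using h1) h2
    let f : Fin k ⊕ ((Fin k × Fin k) × Fin n) → Fin k := Sum.elim id (fun _ => ⟨0, hkpos⟩)
    have h1 := egirth_le_of_collapse (H := cycleGraph k) f p hp.isTrail ?_ ?_ ?_
    · have h2 : (p.edges.filter (fun e => ¬ (Sym2.map f e).IsDiag)).length ≤ p.length := by
        rw [← Walk.length_edges]; exact List.length_filter_le _ _
      have h3 : ((p.edges.filter (fun e => ¬ (Sym2.map f e).IsDiag)).length : ℕ∞)
          ≤ p.length := by exact_mod_cast h2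
      exact (le_egirth_cycleGraph k hk).trans (h1.trans h3)
    · intro e he
      obtain ⟨i, j, hij, rfl⟩ := hbase e he
      left
      exact hij
    · intro e he e' he' _ heq
      obtain ⟨i, j, hij, rfl⟩ := hbase e he
      obtain ⟨i', j', hij', rfl⟩ := hbase e' he'
      simp only [Sym2.map_mk, f, Sum.elim_inl, id] at heq
      rw [Sym2.eq_iff] at heq ⊢
      rcases heq with ⟨rfl, rfl⟩ | ⟨rfl, rfl⟩
      · left; exact ⟨rfl, rfl⟩
      · right; exact ⟨rfl, rfl⟩
    · have hpos : 0 < p.edges.length := by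
        rw [Walk.length_edges]; have := hp.three_le_length; omega
      obtain ⟨e, he⟩ := List.exists_mem_of_length_pos hpos
      obtain ⟨i, j, hij, rfl⟩ := hbase e he
      refine ⟨_, he, ?_⟩
      simp only [Sym2.map_mk, f, Sum.elim_inl, id, Sym2.mk_isDiag_iff]
      exact hij.ne

end Pool.Agent.Lib.MP_2d3ccd_co
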