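import Mathlib
import Pool.Agent.Lib.MP_2d3ccd_co.Big

/-!
# Colourings and heights of the composite graph
-/

open Finset

namespace Pool.Agent.Lib.MP_2d3ccd_co

open SimpleGraph

variable {k n m : ℕ} {H : SimpleGraph (Fin n)} {w x0 : Fin n}

/-- Every assignment of colours to the cycle giving distinct colours to the ends of each chord
extends to the gadgets. -/
theorem exists_extension {m0 : ℕ} (c : Fin n → Fin m0) (hcw : c w = c x0)
    (hc : ∀ y z, H.Adj y z → s(y, z) ≠ s(w, x0) → c y ≠ c z) (hm : m0 ≤ m)
    (col : Fin k → Fin m) (hcol : ∀ i j, Chord i j → col i ≠ col j) :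
    ∃ C : Fin k ⊕ ((Fin k × Fin k) × Fin n) → Fin m, (∀ i, C (Sum.inl i) = col i) ∧
      ∀ a b, (big k H w x0).Adj a b →
        (∃ i j, (cycleGraph k).Adj i j ∧ a = Sum.inl i ∧ b = Sum.inl j) ∨ C a ≠ C b := by
  classical
  let φ : Fin k × Fin k → Fin m0 → Fin m := fun p x =>
    Equiv.swap (Fin.castLE hm (c w)) (col p.2) (Fin.castLE hm x)
  have hφinj : ∀ p, Function.Injective (φ p) := fun p =>
    (Equiv.injective _).comp (Fin.castLE_injective hm)
  have hφw : ∀ p, φ p (c w) = col p.2 := fun p => Equiv.swap_apply_left _ _
  have hport : ∀ (i : Fin k) (p : Fin k × Fin k) (y : Fin n), Port H w x0 i p y →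
      col i ≠ φ p (c y) := by
    intro i p y h
    obtain ⟨hch, ⟨rfl, rfl⟩ | ⟨rfl, h1, h2⟩⟩ := h
    · rw [← hcw, hφw]; exact hcol _ _ hch
    · rw [← hφw p]
      intro h
      refine hc w y h1 ?_ (hφinj p h)
      intro h3
      rw [Sym2.eq_iff] at h3
      rcases h3 with ⟨_, h4⟩ | ⟨h4, h5⟩
      · exact h2 h4
      · exact h1.ne h5.symm
  refine ⟨Sum.elim col (fun py => φ py.1 (c py.2)), fun i => rfl, ?_⟩
  rintro (i | ⟨p, y⟩) (j | ⟨p', z⟩) h
  · left; exact ⟨i, j, h, rfl, rfl⟩
  · right; exact hport i p' z h
  · right; exact (hport j p y h).symm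
  · right
    have h' : p = p' ∧ H.Adj y z ∧ y ≠ w ∧ z ≠ w := h
    obtain ⟨rfl, h1, h2, h3⟩ := h'
    intro h4
    refine hc y z h1 ?_ (hφinj p h4)
    intro h5
    rw [Sym2.eq_iff] at h5
    rcases h5 with ⟨h6, _⟩ | ⟨_, h6⟩
    · exact h2 h6
    · exact h3 h6

theorem big_not_colorable (hH : ¬ H.Colorable m) (hmk : m < k) :
    ¬ (big k H w x0).Colorable m := by
  classical
  rintro ⟨C⟩
  have key : ∀ i j : Fin k, i < j → C (Sum.inl i) ≠ C (Sum.inl j) := by
    intro i j hij heq
    by_cases hadj : (cycleGraph k).Adj i j
    · exact C.valid (show (big k H w x0).Adj (Sum.inl i) (Sum.inl j) from hadj) heq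
    · apply hH
      refine ⟨Coloring.mk (fun y => if y = w then C (Sum.inl i) else C (Sum.inr ((i, j), y))) ?_⟩
      have hw : ∀ z, H.Adj w z → C (Sum.inl i) ≠ C (Sum.inr ((i, j), z)) := by
        intro z hz
        by_cases hzx : z = x0
        · exact C.valid (show (big k H w x0).Adj (Sum.inl i) (Sum.inr ((i, j), z)) from
            ⟨⟨hij, hadj⟩, Or.inl ⟨rfl, hzx⟩⟩)
        · rw [heq]
          exact C.valid (show (big k H w x0).Adj (Sum.inl j) (Sum.inr ((i, j), z)) from
            ⟨⟨hij, hadj⟩, Or.inr ⟨rfl, hz, hzx⟩⟩)
      intro y z hyz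
      by_cases hy : y = w
      · subst hy
        have hz : z ≠ y := hyz.ne'
        simp only [if_true, if_neg hz]
        exact hw z hyz
      · by_cases hz : z = w
        · subst hz
          simp only [if_true, if_neg hy]
          exact (hw y hyz.symm).symm
        · simp only [if_neg hy, if_neg hz]
          exact C.valid (show (big k H w x0).Adj (Sum.inr ((i, j), y)) (Sum.inr ((i, j), z)) from
            ⟨rfl, hyz, hy, hz⟩)
  have hinj : Function.Injective (fun i : Fin k => C (Sum.inl i)) := by
    intro i j hij
    rcases lt_trichotomy i j with h | h | h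
    · exact absurd hij (key i j h)
    · exact h
    · exact absurd hij.symm (key j i h)
  have := Fintype.card_le_of_injective _ hinj
  simp only [Fintype.card_fin] at this
  omega

theorem exists_walk_of_seq {V : Type} (G : SimpleGraph V) (v : ℕ → V) (t : ℕ)
    (h : ∀ i, i < t → G.Adj (v i) (v (i + 1))) :
    ∃ p : G.Walk (v 0) (v t), p.support = (List.range (t + 1)).map v ∧
      p.edges = (List.range t).map (fun i => s(v i, v (i + 1))) := by
  induction t with
  | zero => exact ⟨Walk.nil, by simp, by simp⟩
  | succ t ih =>
    obtain ⟨p, hp1, hp2⟩ := ih (fun i hi => h i (by omega))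
    refine ⟨p.concat (h t (by omega)), ?_, ?_⟩
    · rw [Walk.support_concat, hp1, List.range_succ (n := t + 1), List.map_append]
      simp
    · rw [Walk.edges_concat, hp2, List.range_succ, List.map_append]
      simp

/-- Heights: a proper 3-colouring on the cycle, and shifted colours on the gadgets. -/
def ht (k : ℕ) (hk : 2 ≤ k) (c : Fin n → Fin m) : Fin k ⊕ ((Fin k × Fin k) × Fin n) → ℕ :=
  Sum.elim (fun i => (cycleGraph.tricoloring k hk i).val) (fun py => 3 + (c py.2).val)

theorem ht_ne (hk : 2 ≤ k) (c : Fin n → Fin m)
    (hc : ∀ y z, H.Adj y z → s(y, z) ≠ s(w, x0) → c y ≠ c z)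
    (a b : Fin k ⊕ ((Fin k × Fin k) × Fin n)) (h : (big k H w x0).Adj a b) :
    ht k hk c a ≠ ht k hk c b := by
  rcases a with i | ⟨p, y⟩ <;> rcases b with j | ⟨p', z⟩
  · intro heq
    exact (cycleGraph.tricoloring k hk).valid (show (cycleGraph k).Adj i j from h) (Fin.ext heq)
  · simp only [ht, Sum.elim_inl, Sum.elim_inr]
    have := (cycleGraph.tricoloring k hk i).isLt
    omega
  · simp only [ht, Sum.elim_inl, Sum.elim_inr]
    have := (cycleGraph.tricoloring k hk j).isLt
    omega
  · have h' : p = p' ∧ H.Adj y z ∧ y ≠ w ∧ z ≠ w := h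
    obtain ⟨rfl, h1, h2, h3⟩ := h'
    simp only [ht, Sum.elim_inr]
    intro h4
    refine hc y z h1 ?_ (Fin.ext (by omega))
    intro h5
    rw [Sym2.eq_iff] at h5
    rcases h5 with ⟨h6, _⟩ | ⟨_, h6⟩
    · exact h2 h6
    · exact h3 h6

/-- There is no increasing path of length at least two between adjacent vertices. -/
theorem no_shortcut (hk : 4 ≤ k) (hmk : m + 1 ≤ k) (c : Fin n → Fin m)
    (hadj : H.Adj w x0) (hg : (k : ℕ∞) < H.egirth)
    (t : ℕ) (ht2 : 2 ≤ t) (v : ℕ → Fin k ⊕ ((Fin k × Fin k) × Fin n))
    (hv : ∀ i, i < t → (big k H w x0).Adj (v i) (v (i + 1)) ∧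
      ht k (by omega) c (v i) < ht k (by omega) c (v (i + 1)))
    (h0t : (big k H w x0).Adj (v 0) (v t)) : False := by
  classical
  set h : Fin k ⊕ ((Fin k × Fin k) × Fin n) → ℕ := ht k (by omega) c with hh
  -- heights increase
  have hmono : ∀ i j, i < j → j ≤ t → h (v i) < h (v j) := by
    intro i j hij hjt
    induction j with
    | zero => omega
    | succ j ih =>
      rcases Nat.lt_succ_iff_lt_or_eq.1 hij with h1 | h1
      · exact (ih h1 (by omega)).trans (hv j (by omega)).2
      · subst h1; exact (hv i (by omega)).2
  have hinj : ∀ i j, i ≤ t → j ≤ t → v i = v j → i = j := by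
    intro i j hi hj hij
    rcases lt_trichotomy i j with h1 | h1 | h1
    · have := hmono i j h1 hj; rw [hij] at this; omega
    · exact h1
    · have := hmono j i h1 hi; rw [hij] at this; omega
  obtain ⟨p, hp1, hp2⟩ := exists_walk_of_seq (big k H w x0) v t (fun i hi => (hv i hi).1)
  have hpath : p.IsPath := by
    refine Walk.IsPath.mk' ?_
    rw [hp1]
    refine List.Nodup.map_on ?_ List.nodup_range
    intro i hi j hj hij
    rw [List.mem_range] at hi hj
    exact hinj i j (by omega) (by omega) hij
  have hclose : s(v t, v 0) ∉ p.edges := by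
    rw [hp2, List.mem_map]
    rintro ⟨i, hi, heq⟩
    rw [List.mem_range] at hi
    rw [Sym2.eq_iff] at heq
    rcases heq with ⟨h1, h2⟩ | ⟨h1, h2⟩
    · have := hinj i t (by omega) le_rfl h1; omega
    · have h3 := hinj i 0 (by omega) (by omega) h1
      have h4 := hinj (i + 1) t (by omega) le_rfl h2
      omega
  have hcyc : (Walk.cons h0t.symm p).IsCycle := (Walk.cons_isCycle_iff p _).2 ⟨hpath, hclose⟩
  have hlen : (Walk.cons h0t.symm p).length = t + 1 := by
    rw [Walk.length_cons, ← Walk.length_edges, hp2]; simp
  have hgirth : k ≤ t + 1 := by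
    have h1 := egirth_le_length hcyc
    rw [hlen] at h1
    have h2 := (le_egirth_big (k := k) (by omega) hadj hg).trans h1
    exact_mod_cast h2
  have hltm : ∀ a, h a < 3 + m ∨ h a < 3 := by
    rintro (i | ⟨q, y⟩)
    · right; exact (cycleGraph.tricoloring k (by omega) i).isLt
    · left
      simp only [hh, ht, Sum.elim_inr]
      have := (c y).isLt
      omega
  have hinl : ∀ i : Fin k, h (Sum.inl i) < 3 := fun i =>
    (cycleGraph.tricoloring k (by omega) i).isLt
  rcases hvt : v t with i | ⟨q, y⟩
  · -- the path lies on the cycle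
    have h1 : h (v t) < 3 := by rw [hvt]; exact hinl i
    have h2 : ∀ j, j ≤ t → j ≤ h (v j) := by
      intro j hj
      induction j with
      | zero => omega
      | succ j ih =>
        have := (hv j (by omega)).2
        have := ih (by omega)
        omega
    have := h2 t le_rfl
    omega
  · -- the path ends in the gadget `q`
    have hsurv : ¬ (Sym2.map (proj w q) s(v t, v 0)).IsDiag := by
      have h1 := proj_survive q y (v 0) hadj (by rw [← hvt]; exact h0t.symm)
      rw [← hvt] at h1
      simpa using h1
    have h1 := egirth_le_of_collapse (H := H) (proj w q) (Walk.cons h0t.symm p) hcyc.isTrail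
      ?_ ?_ ⟨s(v t, v 0), by simp, hsurv⟩
    · have h2 : ((Walk.cons h0t.symm p).edges.filter
          (fun e => ¬ (Sym2.map (proj w q) e).IsDiag)).length ≤ m + 1 := by
        rw [Walk.edges_cons, List.filter_cons_of_pos (by simpa using hsurv), List.length_cons, hp2,
          List.filter_map, List.length_map]
        refine Nat.succ_le_succ ?_
        have h3 : ((List.range t).filter ((fun e => decide ¬ (Sym2.map (proj w q) e).IsDiag) ∘
            fun i => s(v i, v (i + 1)))).toFinset ⊆
            (Finset.range t).filter (fun i => 3 ≤ h (v (i + 1))) := by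
          intro i hi
          simp only [List.mem_toFinset, List.mem_filter, List.mem_range, Function.comp,
            decide_eq_true_eq] at hi
          rw [Finset.mem_filter, Finset.mem_range]
          refine ⟨hi.1, ?_⟩
          by_contra hlt
          rw [not_le] at hlt
          have h4 := (hv i hi.1).2
          apply hi.2
          have e1 : proj w q (v i) = w := by
            rcases hvi : v i with i' | ⟨q', y'⟩
            · rfl
            · have : 3 ≤ h (v i) := by rw [hvi]; simp only [hh, ht, Sum.elim_inr]; omega
              omega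
          have e2 : proj w q (v (i + 1)) = w := by
            rcases hvi : v (i + 1) with i' | ⟨q', y'⟩
            · rfl
            · have : 3 ≤ h (v (i + 1)) := by rw [hvi]; simp only [hh, ht, Sum.elim_inr]; omega
              omega
          simp [e1, e2]
        have h5 : (((List.range t).filter ((fun e => decide ¬ (Sym2.map (proj w q) e).IsDiag) ∘
            fun i => s(v i, v (i + 1)))).toFinset).card ≤ m := by
          refine (Finset.card_le_card h3).trans ?_
          have : ((Finset.range t).filter (fun i => 3 ≤ h (v (i + 1)))).card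
              ≤ (Finset.range m).card := by
            refine Finset.card_le_card_of_injOn (fun i => h (v (i + 1)) - 3) ?_ ?_
            · intro i hi
              simp only [Finset.coe_filter, Set.mem_ofPred_eq, Finset.mem_range] at hi
              simp only [Finset.coe_range, Set.mem_Iio]
              rcases hltm (v (i + 1)) with h6 | h6 <;> omega
            · intro i hi j hj hij
              simp only [Finset.coe_filter, Set.mem_ofPred_eq, Finset.mem_range] at hi hj
              simp only at hij
              have h6 : h (v (i + 1)) = h (v (j + 1)) := by omega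
              rcases lt_trichotomy i j with h7 | h7 | h7
              · have := hmono (i + 1) (j + 1) (by omega) (by omega); omega
              · exact h7
              · have := hmono (j + 1) (i + 1) (by omega) (by omega); omega
          simpa using this
        rwa [List.toFinset_card_of_nodup (List.nodup_range.filter _)] at h5
      have h3 : (((Walk.cons h0t.symm p).edges.filter
          (fun e => ¬ (Sym2.map (proj w q) e).IsDiag)).length : ℕ∞) ≤ (k : ℕ∞) := by
        exact_mod_cast h2.trans hmk
      exact absurd (h1.trans h3) (not_le.2 hg)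
    · intro e he
      have he' := Walk.edges_subset_edgeSet _ he
      induction e using Sym2.ind with
      | _ a b =>
        rcases proj_edge hadj q a b he' with h | h
        · left; exact h
        · right; simpa using h
    · intro e he e' he' hd heq
      exact proj_inj q e e' (Walk.edges_subset_edgeSet _ he)
        (Walk.edges_subset_edgeSet _ he') hd heq

end Pool.Agent.Lib.MP_2d3ccd_co
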